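import Pool.Agent.H497.GQ.Main

/-!
# Many nonvanishing Gross-Prasad periods

`F` totally real, `E = F` or `E` a CM extension of `F`, `V = E^n` with a symmetric (hermitian) form which is definite at all
infinite places, `e ∈ V` nonzero, `W = e^⊥`. For every automorphic form `φ' ≠ 0` of level `N` on `G(W)` there are at least
`c N` systems of Hecke eigenvalues of level `N` on `G(V)` with nonzero period against `φ'`.
-/

set_option autoImplicit false

open Pool.Agent.H497.GP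
open scoped Matrix

namespace Pool.Agent.Results.MP_6342b0_nt.ManyNonvanishingPeriods

theorem result (P : DefPair) :
    (P.Integral → ∀ N m : ℕ, 0 < N → N ∣ m → ∀ B : Finset ℕ, (∀ a ∈ B, P.Good N m a) → P.Many N m B.card) ∧
    ∀ (A₀ : Matrix (Fin P.n) (Fin P.n) ℤ) (e₀ : Fin P.n → ℤ), 3 ≤ P.n →
      P.A = A₀.map (Int.cast : ℤ → P.E) → P.e = (fun i => (e₀ i : P.E)) →
      (∀ N m Y : ℕ, 0 < N → N ∣ m → 4 * Y ^ 2 * (e₀ ⬝ᵥ A₀ *ᵥ e₀).natAbs < N ^ 2 →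
        P.Many N m ((Finset.Icc 1 Y).filter fun a =>
          a.Coprime (2 * m * A₀.det.natAbs * (e₀ ⬝ᵥ A₀ *ᵥ e₀).natAbs)).card) ∧
      ∀ N m₀ : ℕ, N.Prime → 0 < m₀ →
        ∃ k : ℕ, N ≤ 8 * m₀ * A₀.det.natAbs * (e₀ ⬝ᵥ A₀ *ᵥ e₀).natAbs ^ 2 * (k + 1) ∧ P.Many N (m₀ * N) k :=
  ⟨fun hI N m hN hm B hB => many_good P hI N m hN hm B hB,
    fun A₀ e₀ hn hA he => ⟨fun N m Y hN hm hY => many_int P A₀ e₀ hn hA he N m Y hN hm hY,
      fun N m₀ hN hm => many_prime P A₀ e₀ hn hA he N m₀ hN hm⟩⟩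

end Pool.Agent.Results.MP_6342b0_nt.ManyNonvanishingPeriods
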